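import Pool.Agent.ExpFrac.Grid

/-!
Among `2 K + 1` consecutive integers `k` from `n` on there is one for which `ξ exp k - β` is not
closer than `exp (-(44 n / K))` to the integers.

`ExpFrac.nint x = |x - round x|` is the distance to the nearest integer.
-/

set_option autoImplicit false

namespace Pool.Agent.Results.MP_1d4bdd_nt.ConsecutiveWindow

open ExpFrac

theorem result (ξ : ℝ) (hξ : ξ ≠ 0) : ∃ n₀ : ℕ, ∀ n ≥ n₀, ∀ K : ℕ, 32 ≤ K →
    400 * (K : ℝ) * Real.log (K + 1) ≤ Real.log n → ∀ β : ℝ,
    ∃ k : ℕ, n ≤ k ∧ k ≤ n + 2 * K ∧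
      Real.exp (-(44 * n / K)) ≤ nint (ξ * Real.exp k - β) := by
  obtain ⟨n₀, h₀⟩ := grid ξ hξ
  refine ⟨n₀, fun n hn K hK h β => ?_⟩
  set y : Option (Fin K) → ℕ := fun j => match j with
    | none => 0
    | some i => (i : ℕ) + 1 with hy
  have hyle : ∀ j, y j ≤ K := by
    intro j
    match j with
    | none => exact Nat.zero_le _
    | some i => exact i.2
  have hK0 : (0 : ℝ) < K := by exact_mod_cast (by omega : 0 < K)
  have hB : (0 : ℝ) < Real.log (K + 1) := by
    have := half_le_log (L := K) (by omega)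
    linarith
  have hln : 0 < Real.log n := by
    have : 0 < 400 * (K : ℝ) * Real.log (K + 1) := by positivity
    linarith
  obtain ⟨i, j, hij⟩ := h₀ n hn K K K K hK (by omega) le_rfl (by omega) h h β y (by
      intro a c hac
      match a, c with
      | none, none => rfl
      | none, some c => exact absurd hac (by simp [hy])
      | some a, none => exact absurd hac (by simp [hy])
      | some a, some c =>
        have h3 : (a : ℕ) + 1 = (c : ℕ) + 1 := hac
        rw [Fin.ext (by omega : (a : ℕ) = c)]) hyle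
    (fun i => Nat.succ_pos _) (fun i => (i : ℕ)) Fin.val_injective (fun i => i.2.le)
  refine ⟨n + i + y j, by omega, ?_, le_trans (Real.exp_le_exp.2 (neg_le_neg ?_)) hij⟩
  · have h3 := i.2
    have h4 := hyle j
    omega
  · show 40 * n / K + 1400 * (K / K) * n * Real.log (K + 1) / Real.log n ≤ 44 * (n : ℝ) / K
    have e1 : 1400 * ((K : ℝ) / K) * n * Real.log (K + 1) / Real.log n ≤ 4 * n / K := by
      rw [div_self hK0.ne', div_le_div_iff₀ hln hK0]
      have := mul_le_mul_of_nonneg_left h (Nat.cast_nonneg n : (0 : ℝ) ≤ n)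
      have h5 : (0 : ℝ) ≤ n * Real.log n := by positivity
      linarith
    have e2 : 44 * (n : ℝ) / K = 40 * n / K + 4 * n / K := by ring
    linarith

end Pool.Agent.Results.MP_1d4bdd_nt.ConsecutiveWindow
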