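import Pool.Agent.ExpFrac.Final2

/-!
The values `ξ exp n` are exponentially close to an integer (or to `β` modulo one) only for a
very sparse set of `n`.

`ExpFrac.nint x = |x - round x|` is the distance to the nearest integer.
-/

set_option autoImplicit false

namespace Pool.Agent.Results.MP_1d4bdd_nt.RareApproach

open ExpFrac

theorem fract_set (φ : ℕ → ℝ) (x : ℕ) :
    {k : ℕ | k ≤ x ∧ Int.fract (Real.exp k) < Real.exp (-φ k)}.ncard ≤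
      {k : ℕ | k ≤ x ∧ nint (1 * Real.exp k - 0) < Real.exp (-φ k)}.ncard := by
  refine Set.ncard_le_ncard ?_ ((Set.finite_Iic x).subset fun k hk => hk.1)
  rintro k ⟨h1, h2⟩
  refine ⟨h1, lt_of_le_of_lt ?_ h2⟩
  rw [one_mul, sub_zero, nint, abs_sub_round_eq_min]
  exact min_le_left _ _

/-- Counting theorem for `ξ exp k - β`, and in particular for the fractional part of `exp k`. -/
theorem result :
    (∀ ξ : ℝ, ξ ≠ 0 → ∃ x₀ : ℕ, ∀ x ≥ x₀, ∀ ε : ℝ, 0 < ε → ε ≤ 1 →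
      3000000 * Real.log (Real.log x) / Real.log x ≤ ε ^ (3 / 2 : ℝ) → ∀ β : ℝ,
      (({k : ℕ | k ≤ x ∧ nint (ξ * Real.exp k - β) < Real.exp (-(ε * k))}.ncard : ℕ) : ℝ) ≤
        (x : ℝ) ^ (1 - ε ^ (3 / 2 : ℝ) / 2000000)) ∧
    (∃ x₀ : ℕ, ∀ x ≥ x₀, ∀ ε : ℝ, 0 < ε → ε ≤ 1 →
      3000000 * Real.log (Real.log x) / Real.log x ≤ ε ^ (3 / 2 : ℝ) →
      (({k : ℕ | k ≤ x ∧ Int.fract (Real.exp k) < Real.exp (-(ε * k))}.ncard : ℕ) : ℝ) ≤
        (x : ℝ) ^ (1 - ε ^ (3 / 2 : ℝ) / 2000000)) := by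
  refine ⟨sparse2, ?_⟩
  obtain ⟨x₀, h₀⟩ := sparse2 1 one_ne_zero
  refine ⟨x₀, fun x hx ε h1 h2 h3 => le_trans ?_ (h₀ x hx ε h1 h2 h3 0)⟩
  exact_mod_cast fract_set (fun k => ε * k) x

end Pool.Agent.Results.MP_1d4bdd_nt.RareApproach
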